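import Mathlib

open MeasureTheory Filter Topology Set
open scoped ENNReal

namespace Pool.Agent.Results.MP_e2d9cc_pr.Pen

section Defs
variable {Ω : Type} [MeasurableSpace Ω]

/-- graphon: symmetric measurable function with values in [0,1] -/
structure IsGraphon (W : Ω → Ω → ℝ) : Prop where
  meas : Measurable (fun z : Ω × Ω => W z.1 z.2)
  symm : ∀ x y, W x y = W y x
  nonneg : ∀ x y, 0 ≤ W x y
  le_one : ∀ x y, W x y ≤ 1

/-- W is connected -/
def Conn (μ : Measure Ω) (W : Ω → Ω → ℝ) : Prop :=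
  ∀ S : Set Ω, MeasurableSet S → 0 < μ S → 0 < μ Sᶜ →
    0 < ∫ z in S ×ˢ Sᶜ, W z.1 z.2 ∂(μ.prod μ)

noncomputable def deg (μ : Measure Ω) (W : Ω → Ω → ℝ) (x : Ω) : ℝ := ∫ y, W x y ∂μ

/-- condition (ii) -/
def LowDeg (μ : Measure Ω) (W : Ω → Ω → ℝ) : Prop :=
  Tendsto (fun α : ℝ => μ.real {x | deg μ W x ≤ α} / α) (𝓝[>] 0) atTop

/-- condition (iii), with W = 0 required only almost everywhere -/
def Narrow (μ : Measure Ω) (W : Ω → Ω → ℝ) : Prop :=
  ∃ a : ℝ, 0 < a ∧ a ≤ 1 / 2 ∧ ∃ A B : Set Ω, MeasurableSet A ∧ MeasurableSet B ∧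
    Disjoint A B ∧ a < μ.real A ∧ μ.real B = 1 - 2 * a ∧
    ∀ᵐ z ∂(μ.prod μ), z ∈ A ×ˢ (A ∪ B) → W z.1 z.2 = 0

/-- condition (iv) -/
def Bip (μ : Measure Ω) (W : Ω → Ω → ℝ) : Prop :=
  ∃ S : Set Ω, MeasurableSet S ∧ μ.real S = 1 / 2 ∧ μ.real Sᶜ = 1 / 2 ∧
    ∀ᵐ z ∂(μ.prod μ), z ∈ (S ×ˢ S) ∪ (Sᶜ ×ˢ Sᶜ) → W z.1 z.2 = 0

open Classical in
/-- conditional probability of the graph G given the points x -/
noncomputable def wt (W : Ω → Ω → ℝ) {n : ℕ} (x : Fin n → Ω) (G : SimpleGraph (Fin n)) : ℝ :=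
  ∏ p ∈ (Finset.univ : Finset (Fin n × Fin n)).filter (fun p => p.1 < p.2),
    if G.Adj p.1 p.2 then W (x p.1) (x p.2) else 1 - W (x p.1) (x p.2)

open Classical in
/-- probability that G(n, W) is Hamiltonian -/
noncomputable def pHam (μ : Measure Ω) (W : Ω → Ω → ℝ) (n : ℕ) : ℝ≥0∞ :=
  ∫⁻ x : Fin n → Ω, ENNReal.ofReal
    (∑ G ∈ (Finset.univ : Finset (SimpleGraph (Fin n))).filter (fun G => G.IsHamiltonian),
      wt W x G) ∂(Measure.pi fun _ => μ)

end Defs

/-! combinatorics -/

lemma rot {m : ℕ} (S T : Finset (Fin (m + 1))) (h1 : ∀ i ∈ S, i + 1 ∈ T)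
    (h2 : ∀ i, i + 1 ∈ S → i ∈ T) (hc : T.card ≤ S.card) (i0 : Fin (m + 1)) (hi : i0 ∈ T)
    (j : Fin (m + 1)) : j ∈ S ∨ j ∈ T := by
  have e : S.image (fun i => i - 1) = T := by
    apply Finset.eq_of_subset_of_card_le
    · intro t ht
      obtain ⟨s, hs, rfl⟩ := Finset.mem_image.1 ht
      apply h2; simpa using hs
    · rw [Finset.card_image_of_injective _ (sub_left_injective)]; exact hc
  have h3 : ∀ t ∈ T, t + 1 ∈ S := by
    intro t ht
    rw [← e] at ht
    obtain ⟨s, hs, rfl⟩ := Finset.mem_image.1 ht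
    simpa using hs
  have h4 : ∀ d : Fin (m + 1), i0 + d ∈ S ∨ i0 + d ∈ T := by
    intro d
    induction d using Fin.induction with
    | zero => right; simpa using hi
    | succ d ih =>
      rw [← Fin.coeSucc_eq_succ, ← add_assoc]
      rcases ih with h | h
      · exact Or.inr (h1 _ h)
      · exact Or.inl (h3 _ h)
  simpa using h4 (j - i0)

lemma ham_lt {n : ℕ} (G : SimpleGraph (Fin n)) (hG : G.IsHamiltonian) (A C : Finset (Fin n))
    (hA : ∀ u ∈ A, ∀ v, G.Adj u v → v ∈ C) (c : Fin n) (hc : c ∈ C) (v : Fin n)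
    (hv1 : v ∉ A) (hv2 : v ∉ C) : A.card < C.card := by
  have hn : Fintype.card (Fin n) ≠ 1 := by
    intro h
    have : Subsingleton (Fin n) := Fintype.card_le_one_iff_subsingleton.1 h.le
    exact hv2 (Subsingleton.elim c v ▸ hc)
  obtain ⟨a, p, hp⟩ := hG hn
  have hl : p.length = n := by simpa using hp.length_eq
  obtain ⟨m, rfl⟩ : ∃ m, n = m + 1 := ⟨n - 1, by have := c.pos; omega⟩
  let f : Fin (m + 1) → Fin (m + 1) := fun i => p.getVert i
  have hinj : Function.Injective f := by
    intro i j hij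
    apply Fin.ext
    exact hp.isCycle.getVert_injOn' (by simp [hl]; omega) (by simp [hl]; omega) hij
  have hbij : Function.Bijective f := Finite.injective_iff_bijective.1 hinj
  have hadj : ∀ i, G.Adj (f i) (f (i + 1)) := by
    intro i
    have h := p.adj_getVert_succ (i := i) (by rw [hl]; exact i.2)
    have : f (i + 1) = p.getVert (i + 1) := by
      simp only [f]
      rw [Fin.val_add_one]
      split_ifs with hi
      · subst hi
        rw [p.getVert_zero, Fin.val_last]
        exact (p.getVert_of_length_le hl.le).symm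
      · rfl
    rw [this]; exact h
  let e := Equiv.ofBijective f hbij
  by_contra hlt
  have := rot (A.map e.symm.toEmbedding) (C.map e.symm.toEmbedding)
    (by
      intro i hi
      rw [Finset.mem_map_equiv] at hi ⊢
      exact hA _ hi _ (hadj i))
    (by
      intro i hi
      rw [Finset.mem_map_equiv] at hi ⊢
      exact hA _ hi _ (hadj i).symm)
    (by simpa using hlt) (e.symm c) (by simpa using hc) (e.symm v)
  simp [hv1, hv2] at this

/-! the space -/

abbrev L := ℕ × Bool
abbrev Om := L × unitInterval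

noncomputable def w (m : ℕ) : ℝ≥0∞ := 2⁻¹ ^ (m + 2)

noncomputable def nu : Measure L := Measure.sum fun p : L => w p.1 • Measure.dirac p

lemma nu_single (p : L) : nu {p} = w p.1 := by
  unfold nu
  rw [Measure.sum_apply _ (measurableSet_singleton p), tsum_eq_single p]
  · simp
  · intro q hq
    simp [hq]

lemma tsum_w : ∑' p : L, w p.1 = 1 := by
  rw [ENNReal.tsum_prod']
  have : ∀ m : ℕ, ∑' _b : Bool, w m = 2⁻¹ * 2⁻¹ ^ m := by
    intro m
    rw [tsum_fintype]
    simp only [Finset.sum_const, Finset.card_univ, Fintype.card_bool, nsmul_eq_mul, w]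
    have h2 : (2 : ℝ≥0∞) * 2⁻¹ = 1 := ENNReal.mul_inv_cancel (by simp) (by simp)
    calc ((2 : ℕ) : ℝ≥0∞) * 2⁻¹ ^ (m + 2) = (2 * 2⁻¹) * (2⁻¹ * 2⁻¹ ^ m) := by
          push_cast; ring
      _ = _ := by rw [h2, one_mul]
  simp only [this]
  rw [ENNReal.tsum_mul_left, ENNReal.tsum_geometric]
  simp [ENNReal.inv_mul_cancel]

instance : IsProbabilityMeasure nu := ⟨by
  unfold nu
  rw [Measure.sum_apply _ MeasurableSet.univ]
  simpa using tsum_w⟩

noncomputable def mu : Measure Om := nu.prod volume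

instance : IsProbabilityMeasure mu := by unfold mu; infer_instance

def blk (p : L) : Set Om := {x | x.1 = p}

lemma mu_pre (s : Set L) : mu (Prod.fst ⁻¹' s) = nu s := by
  have : (Prod.fst ⁻¹' s : Set Om) = s ×ˢ univ := by ext; simp
  rw [this, mu, Measure.prod_prod]; simp

lemma mu_blk (p : L) : mu (blk p) = w p.1 := by
  rw [← nu_single, ← mu_pre]; rfl

lemma meas_pre (s : Set L) : MeasurableSet (Prod.fst ⁻¹' s : Set Om) :=
  measurable_fst (Set.to_countable s).measurableSet

lemma meas_blk (p : L) : MeasurableSet (blk p) := meas_pre {p}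

lemma w_pos (m : ℕ) : w m ≠ 0 := by simp [w]

lemma null_of (S : Set Om) (h : ∀ p, mu (S ∩ blk p) = 0) : mu S = 0 := by
  have : S = ⋃ p, S ∩ blk p := by ext x; simp [blk]
  rw [this]; exact measure_iUnion_null h

def sw (q : ℕ → Bool) (x : Om) : Om := ((x.1.1, xor (q x.1.1) x.1.2), x.2)

lemma sw_mp (q : ℕ → Bool) : MeasurePreserving (sw q) mu mu := by
  have h : MeasurePreserving (fun p : L => ((p.1, xor (q p.1) p.2) : L)) nu nu := by
    refine ⟨measurable_of_countable _, ?_⟩
    apply Measure.ext_of_singleton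
    intro p
    rw [Measure.map_apply (measurable_of_countable _) (measurableSet_singleton p)]
    have : (fun p : L => ((p.1, xor (q p.1) p.2) : L)) ⁻¹' {p} = {(p.1, xor (q p.1) p.2)} := by
      ext ⟨m, b⟩
      obtain ⟨m', b'⟩ := p
      simp only [mem_preimage, mem_singleton_iff, Prod.mk.injEq]
      constructor
      · rintro ⟨rfl, rfl⟩; simp
      · rintro ⟨rfl, rfl⟩; simp
    rw [this, nu_single, nu_single]
  exact h.prod (MeasurePreserving.id volume)

def R (p q : L) : Prop := (p.2 = false ∧ q.2 = false) ∨ (p.1 = q.1 ∧ p.2 ≠ q.2)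

open Classical in
noncomputable def W (x y : Om) : ℝ := if R x.1 y.1 then 1 else 0

lemma R_symm {p q : L} (h : R p q) : R q p := by
  unfold R at *; tauto

lemma graphon : IsGraphon W where
  meas := by
    classical
    have : (fun z : Om × Om => W z.1 z.2) =
        (fun t : L × L => if R t.1 t.2 then (1 : ℝ) else 0) ∘ (fun z => (z.1.1, z.2.1)) := by
      ext z; simp only [W, Function.comp]
    rw [this]
    exact (measurable_of_countable _).comp (by fun_prop)
  symm x y := by
    unfold W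
    by_cases h : R x.1 y.1
    · rw [if_pos h, if_pos (R_symm h)]
    · rw [if_neg h, if_neg (fun h' => h (R_symm h'))]
  nonneg x y := by unfold W; split_ifs <;> norm_num
  le_one x y := by unfold W; split_ifs <;> norm_num

lemma key {U : Set (Om × Om)} (h : ∀ᵐ z ∂(mu.prod mu), z ∈ U → W z.1 z.2 = 0)
    (S T : Set Om) (p q : L) (hST : S ×ˢ T ⊆ U) (hR : R p q) :
    mu (S ∩ blk p) = 0 ∨ mu (T ∩ blk q) = 0 := by
  rw [← mul_eq_zero, ← Measure.prod_prod]
  refine measure_mono_null ?_ (ae_iff.1 h)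
  rintro ⟨x, y⟩ ⟨⟨hx, hx'⟩, ⟨hy, hy'⟩⟩
  simp only [blk, mem_ofPred_eq] at hx' hy' ⊢
  intro hh
  have := hh (hST ⟨hx, hy⟩)
  simp [W, hx', hy', hR] at this

lemma not_both (S : Set Om) (p : L) (h1 : mu (S ∩ blk p) = 0) (h2 : mu (Sᶜ ∩ blk p) = 0) :
    False := by
  apply w_pos p.1
  rw [← mu_blk]
  refine measure_mono_null ?_ (measure_union_null h1 h2)
  intro x hx
  by_cases h : x ∈ S
  · exact Or.inl ⟨h, hx⟩
  · exact Or.inr ⟨h, hx⟩

lemma conn : Conn mu W := by
  intro S hS h1 h2
  by_contra hle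
  have hint : Integrable (fun z : Om × Om => W z.1 z.2) ((mu.prod mu).restrict (S ×ˢ Sᶜ)) := by
    refine Integrable.of_bound graphon.meas.aestronglyMeasurable 1 (ae_of_all _ fun z => ?_)
    rw [Real.norm_eq_abs, abs_of_nonneg (graphon.nonneg _ _)]; exact graphon.le_one _ _
  have h0 : ∫ z in S ×ˢ Sᶜ, W z.1 z.2 ∂(mu.prod mu) = 0 :=
    le_antisymm (not_lt.1 hle) (integral_nonneg fun z => graphon.nonneg _ _)
  have h3 := (integral_eq_zero_iff_of_nonneg (fun z => graphon.nonneg _ _) hint).1 h0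
  have h4 : ∀ᵐ z ∂(mu.prod mu), z ∈ S ×ˢ Sᶜ → W z.1 z.2 = 0 :=
    (ae_restrict_iff' (hS.prod hS.compl)).1 h3
  have k := fun p q => key h4 S Sᶜ p q subset_rfl
  rcases k (0, false) (0, false) (Or.inl ⟨rfl, rfl⟩) with h | h
  · have a : ∀ m, mu (S ∩ blk (m, false)) = 0 := fun m =>
      (k (m, false) (0, false) (Or.inl ⟨rfl, rfl⟩)).resolve_right (not_both S _ h)
    apply h1.ne'
    apply null_of
    rintro ⟨m, _ | _⟩
    · exact a m
    · exact (k (m, true) (m, false) (Or.inr ⟨rfl, by simp⟩)).resolve_right (not_both S _ (a m))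
  · have a : ∀ m, mu (Sᶜ ∩ blk (m, false)) = 0 := fun m =>
      (k (0, false) (m, false) (Or.inl ⟨rfl, rfl⟩)).resolve_left (fun h' => not_both S _ h' h)
    apply h2.ne'
    apply null_of
    rintro ⟨m, _ | _⟩
    · exact a m
    · exact (k (m, false) (m, true) (Or.inr ⟨rfl, by simp⟩)).resolve_left
        (fun h' => not_both S _ h' (a m))

lemma not_bip : ¬ Bip mu W := by
  rintro ⟨S, -, -, -, h⟩
  have a := key h S S (0, false) (0, false) subset_union_left (Or.inl ⟨rfl, rfl⟩)
  have b := key h Sᶜ Sᶜ (0, false) (0, false) subset_union_right (Or.inl ⟨rfl, rfl⟩)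
  exact not_both S _ (a.elim id id) (b.elim id id)

lemma not_narrow : ¬ Narrow mu W := by
  rintro ⟨a, -, -, A, B, hA, hB, hd, h1, h2, h⟩
  have t := sw_mp (fun _ => true)
  have h3 : mu (A ∩ sw (fun _ => true) ⁻¹' (A ∪ B)) = 0 := by
    apply null_of
    rintro ⟨m, _ | _⟩
    · have := key h A A (m, false) (m, false) (prod_mono subset_rfl subset_union_left)
        (Or.inl ⟨rfl, rfl⟩)
      exact measure_mono_null (inter_subset_inter_left _ inter_subset_left) (this.elim id id)
    · rcases key h A (A ∪ B) (m, true) (m, false) subset_rfl (Or.inr ⟨rfl, by simp⟩) with h' | h'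
      · exact measure_mono_null (inter_subset_inter_left _ inter_subset_left) h'
      · rw [← t.measure_preimage ((hA.union hB).inter (meas_blk _)).nullMeasurableSet] at h'
        refine measure_mono_null ?_ h'
        intro x hx
        refine ⟨hx.1.2, ?_⟩
        have : x.1 = (m, true) := hx.2
        simp [blk, sw, this]
  have h4 : mu A ≤ mu (A ∪ B)ᶜ := by
    rw [← t.measure_preimage (hA.union hB).compl.nullMeasurableSet]
    calc mu A ≤ mu (A ∩ sw (fun _ => true) ⁻¹' (A ∪ B) ∪ sw (fun _ => true) ⁻¹' (A ∪ B)ᶜ) := by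
          apply measure_mono
          intro x hx
          by_cases hh : sw (fun _ => true) x ∈ A ∪ B
          · exact Or.inl ⟨hx, hh⟩
          · exact Or.inr hh
      _ ≤ _ := by
          refine (measure_union_le _ _).trans ?_
          rw [h3, zero_add]
  have h5 : mu.real A ≤ mu.real (A ∪ B)ᶜ := ENNReal.toReal_mono (measure_ne_top _ _) h4
  rw [probReal_compl_eq_one_sub (hA.union hB), measureReal_union hd hB] at h5
  linarith

lemma deg_ge (x : Om) : (1 / 2 : ℝ) ^ (x.1.1 + 2) ≤ deg mu W x := by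
  have h1 : (1 / 2 : ℝ) ^ (x.1.1 + 2) = mu.real (blk (x.1.1, false)) := by
    simp [Measure.real, mu_blk, w]
  rw [h1, ← integral_indicator_one (meas_blk _), deg]
  apply integral_mono
  · exact (integrable_const 1).indicator (meas_blk _)
  · refine Integrable.of_bound
      (graphon.meas.comp measurable_prodMk_left).aestronglyMeasurable 1 (ae_of_all _ fun z => ?_)
    rw [Real.norm_eq_abs, abs_of_nonneg (graphon.nonneg _ _)]; exact graphon.le_one _ _
  · intro y
    by_cases hy : y ∈ blk (x.1.1, false)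
    · have : y.1 = (x.1.1, false) := hy
      have hR : R x.1 y.1 := by
        rw [this]; unfold R
        cases hb : x.1.2 <;> simp
      simp [indicator_of_mem hy, W, hR]
    · simp only [indicator_of_notMem hy]; exact graphon.nonneg _ _

lemma tail (j : ℕ) : nu {p | j ≤ p.1} ≤ 2⁻¹ ^ j := by
  calc nu {p | j ≤ p.1} ≤ nu (⋃ p : L, {(p.1 + j, p.2)}) := by
        apply measure_mono
        rintro ⟨m, b⟩ hm
        simp only [mem_ofPred_eq] at hm
        exact mem_iUnion.2 ⟨(m - j, b), by simp [Nat.sub_add_cancel hm]⟩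
    _ ≤ ∑' p : L, nu {(p.1 + j, p.2)} := measure_iUnion_le _
    _ = ∑' p : L, 2⁻¹ ^ j * w p.1 := by
        congr 1; ext p; rw [nu_single]; simp only [w]; ring
    _ = _ := by rw [ENNReal.tsum_mul_left, tsum_w, mul_one]

lemma not_low : ¬ LowDeg mu W := by
  intro h
  have h1 : Tendsto (fun j : ℕ => (1 / 2 : ℝ) ^ (j + 2)) atTop (𝓝[>] 0) := by
    apply tendsto_nhdsWithin_of_tendsto_nhds_of_eventually_within
    · exact (tendsto_pow_atTop_nhds_zero_of_lt_one (by norm_num) (by norm_num)).comp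
        (tendsto_add_atTop_nat 2)
    · exact Eventually.of_forall fun j => by simp
  obtain ⟨j, hj⟩ := ((h.comp h1).eventually_gt_atTop 4).exists
  simp only [Function.comp] at hj
  have h2 : mu {x | deg mu W x ≤ (1 / 2 : ℝ) ^ (j + 2)} ≤ 2⁻¹ ^ j := by
    refine le_trans ?_ (tail j)
    rw [← mu_pre]
    apply measure_mono
    intro x hx
    have h3 := (deg_ge x).trans hx
    have := (pow_le_pow_iff_right_of_lt_one₀ (by norm_num) (by norm_num)).1 h3
    simp only [mem_preimage, mem_ofPred_eq]; omega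
  have h3 : mu.real {x | deg mu W x ≤ (1 / 2 : ℝ) ^ (j + 2)} ≤ (1 / 2) ^ j := by
    have := ENNReal.toReal_mono (by simp) h2
    simpa [Measure.real] using this
  rw [lt_div_iff₀ (by positivity)] at hj
  have h4 : (1 / 2 : ℝ) ^ (j + 2) = (1 / 2) ^ j / 4 := by ring
  linarith

/-! the probability -/

def N {n : ℕ} (x : Fin n → Om) (p : L) : ℕ := (Finset.univ.filter fun i => (x i).1 = p).card

def E (n K : ℕ) : Set (Fin n → Om) := {x | ∀ k < K, N x (k, true) < N x (k, false)}

def Z (n k : ℕ) : Set (Fin n → Om) := Set.pi univ fun _ => (blk (k, false))ᶜ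

lemma meas_E (n K : ℕ) : MeasurableSet (E n K) := by
  have : E n K = (fun (x : Fin n → Om) i => (x i).1) ⁻¹'
      {y | ∀ k < K, (Finset.univ.filter fun i => y i = (k, true)).card <
        (Finset.univ.filter fun i => y i = (k, false)).card} := rfl
  rw [this]
  exact (by fun_prop : Measurable (fun (x : Fin n → Om) i => (x i).1))
    (Set.to_countable _).measurableSet

lemma N_sw {n : ℕ} (x : Fin n → Om) (q : ℕ → Bool) (k : ℕ) (b : Bool) :
    N (fun i => sw q (x i)) (k, b) = N x (k, xor (q k) b) := by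
  unfold N
  congr 1
  apply Finset.filter_congr
  intro i _
  have : ∀ y : Om, (sw q y).1 = (k, b) ↔ y.1 = (k, xor (q k) b) := by
    rintro ⟨⟨m, c⟩, t⟩
    simp only [sw, Prod.mk.injEq]
    constructor
    · rintro ⟨rfl, rfl⟩; simp
    · rintro ⟨rfl, rfl⟩; simp
  exact this _

lemma P_E (n K : ℕ) : (Measure.pi fun _ : Fin n => mu) (E n K) ≤ (K : ℝ≥0∞)⁻¹ := by
  let F : ℕ → Set (Fin n → Om) := fun k => (fun x i => sw (fun j => decide (j = k)) (x i)) ⁻¹' E n K
  have t := fun k => measurePreserving_pi (fun _ : Fin n => mu) (fun _ => mu)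
    (fun _ => sw_mp (fun j => decide (j = k)))
  have h1 : ∀ k, (Measure.pi fun _ : Fin n => mu) (F k) = (Measure.pi fun _ : Fin n => mu) (E n K) :=
    fun k => (t k).measure_preimage (meas_E n K).nullMeasurableSet
  have h2 : Set.PairwiseDisjoint (Finset.range K : Set ℕ) F := by
    intro k hk l _ hkl
    rw [Function.onFun, Set.disjoint_left]
    intro x hx hx'
    have a := hx k (by simpa using hk)
    have b := hx' k (by simpa using hk)
    rw [N_sw, N_sw] at a b
    simp [hkl] at a b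
    omega
  have h3 := measure_biUnion_finset (μ := Measure.pi fun _ : Fin n => mu) h2
    (fun k _ => (t k).measurable (meas_E n K))
  simp only [h1, Finset.sum_const, Finset.card_range, nsmul_eq_mul] at h3
  rw [ENNReal.le_inv_iff_mul_le, mul_comm, ← h3]
  exact prob_le_one

lemma P_Z (n k : ℕ) : (Measure.pi fun _ : Fin n => mu) (Z n k) = (1 - w k) ^ n := by
  rw [Z, Measure.pi_pi, prob_compl_eq_one_sub (meas_blk _), mu_blk]
  simp

def Gx {n : ℕ} (x : Fin n → Om) : SimpleGraph (Fin n) where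
  Adj i j := i ≠ j ∧ R (x i).1 (x j).1
  symm := ⟨fun _ _ h => ⟨h.1.symm, R_symm h.2⟩⟩
  loopless := ⟨fun _ h => h.1 rfl⟩

lemma wt_ne {n : ℕ} (x : Fin n → Om) (G : SimpleGraph (Fin n)) (h : wt W x G ≠ 0) : G = Gx x := by
  have h1 : ∀ i j, i < j → (G.Adj i j ↔ R (x i).1 (x j).1) := by
    intro i j hij
    have := Finset.prod_ne_zero_iff.1 h (i, j) (by simpa using hij)
    by_cases a : G.Adj i j <;> by_cases b : R (x i).1 (x j).1 <;> simp [a, b, W] at this ⊢
  ext i j
  rcases lt_trichotomy i j with hij | rfl | hij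
  · simp [Gx, h1 i j hij, hij.ne]
  · simp
  · rw [G.adj_comm, (Gx x).adj_comm]; simp [Gx, h1 j i hij, hij.ne]

lemma wt_le {n : ℕ} (x : Fin n → Om) (G : SimpleGraph (Fin n)) : wt W x G ≤ 1 := by
  apply Finset.prod_le_one
  · intro p _; split_ifs
    · exact graphon.nonneg _ _
    · linarith [graphon.le_one (x p.1) (x p.2)]
  · intro p _; split_ifs
    · exact graphon.le_one _ _
    · linarith [graphon.nonneg (x p.1) (x p.2)]

lemma ham_mem {n : ℕ} (K : ℕ) (x : Fin n → Om) (h : (Gx x).IsHamiltonian) :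
    x ∈ E n K ∪ ⋃ k ∈ Finset.range (K + 1), Z n k := by
  by_contra hn
  simp only [mem_union, mem_iUnion, not_or, not_exists] at hn
  have a : ∀ k ≤ K, ∃ i, (x i).1 = (k, false) := by
    intro k hk
    by_contra hh
    exact hn.2 k (by simp; omega) (fun i _ hi => hh ⟨i, hi⟩)
  apply hn.1
  intro k hk
  obtain ⟨c, hc⟩ := a k hk.le
  obtain ⟨v, hv⟩ := a K le_rfl
  refine ham_lt _ h _ _ ?_ c (by simpa using hc) v (by simp [hv]) (by simp [hv]; omega)
  intro u hu v' huv
  have hu' : (x u).1 = (k, true) := by simpa using hu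
  have := huv.2
  rw [hu'] at this
  simp only [R] at this
  rcases hx : (x v').1 with ⟨m, b⟩
  rw [hx] at this
  simp only [Finset.mem_filter, Finset.mem_univ, true_and, hx]
  cases b <;> simp at this ⊢
  exact this.symm

lemma pHam_le (n K : ℕ) :
    pHam mu W n ≤ (K : ℝ≥0∞)⁻¹ + ∑ k ∈ Finset.range (K + 1), (1 - w k) ^ n := by
  classical
  have hm : MeasurableSet (E n K ∪ ⋃ k ∈ Finset.range (K + 1), Z n k) :=
    (meas_E n K).union (Finset.measurableSet_biUnion _ fun k _ =>
      MeasurableSet.univ_pi fun _ => (meas_blk _).compl)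
  calc pHam mu W n ≤ ∫⁻ x, (E n K ∪ ⋃ k ∈ Finset.range (K + 1), Z n k).indicator 1 x
        ∂(Measure.pi fun _ : Fin n => mu) := by
        apply lintegral_mono
        intro x
        by_cases hx : x ∈ E n K ∪ ⋃ k ∈ Finset.range (K + 1), Z n k
        · simp only [indicator_of_mem hx, Pi.one_apply, ENNReal.ofReal_le_one]
          refine (Finset.sum_le_sum (g := fun G => if G = Gx x then 1 else 0) ?_).trans ?_
          · intro G _
            split_ifs with hG
            · exact wt_le x G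
            · by_contra h
              exact hG (wt_ne x G (by intro h0; simp [h0] at h))
          · rw [Finset.sum_ite_eq']; split_ifs <;> norm_num
        · simp only [indicator_of_notMem hx]
          rw [Finset.sum_eq_zero]
          · simp
          · intro G hG
            by_contra h
            have := wt_ne x G h
            subst this
            exact hx (ham_mem K x (by simpa using hG))
    _ = (Measure.pi fun _ : Fin n => mu) (E n K ∪ ⋃ k ∈ Finset.range (K + 1), Z n k) :=
        lintegral_indicator_one hm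
    _ ≤ _ := by
        refine (measure_union_le _ _).trans (add_le_add (P_E n K) ?_)
        refine (measure_biUnion_finset_le _ _).trans ?_
        simp [P_Z]

lemma pHam_lim : Tendsto (pHam mu W) atTop (𝓝 0) := by
  rw [ENNReal.tendsto_nhds_zero]
  intro ε hε
  obtain ⟨K, hK⟩ := ENNReal.exists_inv_nat_lt hε.ne'
  have h1 : Tendsto (fun n => (K : ℝ≥0∞)⁻¹ + ∑ k ∈ Finset.range (K + 1), (1 - w k) ^ n) atTop
      (𝓝 ((K : ℝ≥0∞)⁻¹ + ∑ k ∈ Finset.range (K + 1), 0)) := by
    refine tendsto_const_nhds.add (tendsto_finsetSum _ fun k _ => ?_)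
    exact ENNReal.tendsto_pow_atTop_nhds_zero_of_lt_one
      (ENNReal.sub_lt_self (by simp) (by simp) (w_pos k))
  simp only [Finset.sum_const_zero, add_zero] at h1
  filter_upwards [h1.eventually (gt_mem_nhds hK)] with n hn
  exact (pHam_le n K).trans hn.le

theorem result : ∃ (Ω : Type) (_ : MeasurableSpace Ω) (_ : StandardBorelSpace Ω) (μ : Measure Ω),
    IsProbabilityMeasure μ ∧ (∀ x, μ {x} = 0) ∧ ∃ W : Ω → Ω → ℝ, IsGraphon W ∧
      Conn μ W ∧ ¬ LowDeg μ W ∧ ¬ Narrow μ W ∧ ¬ Bip μ W ∧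
      Tendsto (pHam μ W) atTop (𝓝 0) := by
  refine ⟨Om, inferInstance, inferInstance, mu, inferInstance, ?_, W, graphon, conn, not_low,
    not_narrow, not_bip, pHam_lim⟩
  rintro ⟨p, t⟩
  rw [← singleton_prod_singleton, mu, Measure.prod_prod]
  simp

end Pool.Agent.Results.MP_e2d9cc_pr.Pen
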